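import Pool.Agent.L7h26.TN.Stm

set_option autoImplicit false

namespace Pool.Agent.L7h26.TN

open Polynomial

theorem Q_prime {N p : ℕ} (_hN : N ≠ 0) (hp : p ∈ N.primeFactors.filter (fun p => p ≠ 2 ∧ ¬ p ^ 2 ∣ N)) :
    p.Prime ∧ p ≠ 2 ∧ Ex p N := by
  rw [Finset.mem_filter, Nat.mem_primeFactors] at hp
  exact ⟨hp.1.1, hp.2.1, hp.1.2.1, hp.2.2⟩

theorem Q_pos (N : ℕ) : 0 < Q N := by
  refine Finset.prod_pos fun p hp => ?_
  rw [Finset.mem_filter] at hp
  exact (Nat.prime_of_mem_primeFactors hp.1).pos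

/-- A product of distinct primes divides `m` (to the power `k`) as soon as each factor does. -/
theorem Q_pow_dvd {N m k : ℕ} (hN : N ≠ 0) (h : ∀ p, p.Prime → p ≠ 2 → Ex p N → p ^ k ∣ m) : Q N ^ k ∣ m := by
  unfold Q
  rw [← Finset.prod_pow]
  refine Finset.prod_dvd_of_isRelPrime ?_ ?_
  · intro p hp q hq hpq
    have h1 := Q_prime hN hp
    have h2 := Q_prime hN hq
    exact Nat.coprime_iff_isRelPrime.1 (Nat.Coprime.pow k k ((Nat.coprime_primes h1.1 h2.1).2 hpq))
  · intro p hp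
    obtain ⟨h1, h2, h3⟩ := Q_prime hN hp
    exact h p h1 h2 h3

theorem Q_dvd (N : ℕ) : Q N ∣ N := by
  rcases Nat.eq_zero_or_pos N with rfl | hN
  · exact dvd_zero _
  · have := Q_pow_dvd (N := N) (m := N) (k := 1) hN.ne' (fun p _ _ h => by rw [pow_one]; exact h.1)
    rwa [pow_one] at this

theorem Q_odd (N : ℕ) : ¬ 2 ∣ Q N := by
  unfold Q
  rw [Prime.dvd_finsetProd_iff Nat.prime_two.prime]
  rintro ⟨p, hp, h⟩
  rw [Finset.mem_filter] at hp
  exact hp.2.1 ((Nat.prime_dvd_prime_iff_eq Nat.prime_two (Nat.prime_of_mem_primeFactors hp.1)).1 h).symm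

theorem Q_coprime_of {N M : ℕ} (h : N.Coprime M) : (Q N).Coprime (Q M) :=
  Nat.Coprime.coprime_dvd_left (Q_dvd N) (Nat.Coprime.coprime_dvd_right (Q_dvd M) h)

theorem natDegree_S (n : ℕ) (h : 4 ≤ n) : (S n).natDegree = n + 1 ∧ (S n).leadingCoeff = (n : ℤ) - 1 := by
  have hne : ((n : ℤ) - 1) ≠ 0 := by omega
  have e1 : (C ((n : ℤ) - 1) * (X ^ (n + 1) - 1)).natDegree = n + 1 := by
    rw [natDegree_C_mul hne]
    have : (1 : ℤ[X]) = C 1 := by simp
    rw [this]
    exact natDegree_X_pow_sub_C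
  have e2 : (C ((n : ℤ) + 1) * (X ^ n - X)).natDegree < n + 1 := by
    refine lt_of_le_of_lt (natDegree_C_mul_le _ _) ?_
    refine lt_of_le_of_lt (natDegree_sub_le _ _) ?_
    rw [natDegree_X_pow, natDegree_X]
    omega
  have e3 : (C ((n : ℤ) - 1) * (X ^ (n + 1) - 1)).leadingCoeff = (n : ℤ) - 1 := by
    rw [leadingCoeff_mul, leadingCoeff_C]
    have : (1 : ℤ[X]) = C 1 := by simp
    rw [this, leadingCoeff_X_pow_sub_C (by omega), mul_one]
  constructor
  · unfold S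
    rw [natDegree_sub_eq_left_of_natDegree_lt (by rw [e1]; exact e2), e1]
  · unfold S
    rw [leadingCoeff_sub_of_degree_lt, e3]
    refine degree_lt_degree ?_
    rw [e1]; exact e2

/-- Degrees of a factorisation. -/
theorem deg_add {n : ℕ} (h4 : 4 ≤ n) {g h : ℤ[X]} (he : (X - 1) ^ 3 * (g * h) = S n) :
    g.natDegree + h.natDegree + 2 = n := by
  have hS := natDegree_S n h4
  have hS0 : S n ≠ 0 := by
    intro h0
    rw [h0, natDegree_zero] at hS
    omega
  rw [← he] at hS0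
  have hx : ((X : ℤ[X]) - 1) ^ 3 ≠ 0 := left_ne_zero_of_mul hS0
  have hgh : g * h ≠ 0 := right_ne_zero_of_mul hS0
  have h1 := hS.1
  rw [← he, natDegree_mul hx hgh, natDegree_mul (left_ne_zero_of_mul hgh) (right_ne_zero_of_mul hgh),
    natDegree_pow] at h1
  have h2 : ((X : ℤ[X]) - 1).natDegree = 1 := by
    have : (1 : ℤ[X]) = C 1 := by simp
    rw [this]; exact natDegree_X_sub_C _
  rw [h2] at h1
  omega

theorem s_DIV (hCOP : S_COP) (h1 : S_LOC1) (h0 : S_LOC0) (hM : S_LOCM) (hF : S_FAC) : S_DIV := by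
  intro n F hn h4 hF1 hF2
  obtain ⟨g, h, he, hg, hh, hor⟩ := hF n F hn h4 hF1 hF2
  have hdeg := deg_add h4 he
  rcases hor with ⟨hrg, hrh⟩ | heq
  · right
    refine ⟨g.natDegree, h.natDegree, hg, hh, hdeg, ?_⟩
    set d := g.natDegree
    set d' := h.natDegree
    have hA : Q (n + 1) ^ 2 ∣ d * (d + 3) * (d' * (d' + 3)) := by
      refine Q_pow_dvd (by omega) fun p hp hp2 hpn => ?_
      have hc := hCOP p n hp hp2 hn h4 (Or.inl hpn) g h he
      rcases h1 p n hp hp2 hn h4 hpn g h he hc with ⟨ha, hb⟩ | ⟨ha, hb⟩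
      · rw [pow_two]
        exact mul_dvd_mul (ha.mul_right _) (hb.mul_left _)
      · rw [pow_two]
        exact mul_dvd_mul (ha.mul_left _) (hb.mul_right _)
    have hB : Q n ∣ d * (d + 3) * (d' * (d' + 3)) := by
      have := Q_pow_dvd (N := n) (m := d * (d + 3) * (d' * (d' + 3))) (k := 1) (by omega)
        fun p hp hp2 hpn => by
          have hc := hCOP p n hp hp2 hn h4 (Or.inr (Or.inl hpn)) g h he
          rw [pow_one]
          rcases h0 p n hp hp2 hn h4 hpn g h he hc with ha | ha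
          · exact ha.mul_right _
          · exact ha.mul_left _
      rwa [pow_one] at this
    have hC : Q (n - 1) ∣ d * (d + 3) * (d' * (d' + 3)) := by
      have := Q_pow_dvd (N := n - 1) (m := d * (d + 3) * (d' * (d' + 3))) (k := 1) (by omega)
        fun p hp hp2 hpn => by
          have hc := hCOP p n hp hp2 hn h4 (Or.inr (Or.inr hpn)) g h he
          rw [pow_one]
          rcases hM p n hp hp2 hn h4 hpn g h he hc hrg hrh with ha | ha
          · exact ha.mul_right _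
          · exact ha.mul_left _
      rwa [pow_one] at this
    obtain ⟨k, hk⟩ := hn
    have c1 : (n + 1).Coprime n := by simp
    have c2 : n.Coprime (n - 1) := by
      have : n = (n - 1) + 1 := by omega
      rw [this]; simp
    have c3 : (n + 1).Coprime (n - 1) := by
      rw [show n + 1 = (n - 1) + 2 by omega, Nat.coprime_self_add_left]
      exact Nat.coprime_two_left.2 ⟨k - 1, by omega⟩
    refine Nat.Coprime.mul_dvd_of_dvd_of_dvd ?_ (Nat.Coprime.mul_dvd_of_dvd_of_dvd ?_ hA hB) hC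
    · exact Nat.Coprime.mul_left (Nat.Coprime.pow_left 2 (Q_coprime_of c3)) (Q_coprime_of c2)
    · exact Nat.Coprime.pow_left 2 (Q_coprime_of c1)
  · left
    have := Q_pow_dvd (N := n + 1) (m := 3) (k := 1) (by omega) fun p hp hp2 hpn => by
      have hc := hCOP p n hp hp2 hn h4 (Or.inl hpn) g h he
      rw [pow_one]
      rcases h1 p n hp hp2 hn h4 hpn g h he hc with ⟨ha, hb⟩ | ⟨ha, hb⟩
      · rw [← heq] at hb
        exact (Nat.dvd_add_right ha).1 hb
      · rw [← heq] at hb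
        exact (Nat.dvd_add_right hb).1 ha
    rwa [pow_one] at this

theorem four_dvd {n d d' : ℕ} (_hn : Even n) (_h : d + d' + 2 = n) : 4 ∣ d * (d + 3) * (d' * (d' + 3)) := by
  have key : ∀ a : ℕ, 2 ∣ a * (a + 3) := by
    intro a
    rcases Nat.even_or_odd a with ⟨b, hb⟩ | ⟨b, hb⟩
    · exact Dvd.dvd.mul_right ⟨b, by omega⟩ _
    · exact Dvd.dvd.mul_left ⟨b + 2, by omega⟩ _
  have := mul_dvd_mul (key d) (key d')
  simpa using this

/-- The criterion when a prime other than 3 divides `n + 1` exactly once. -/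
theorem crit (hDIV : S_DIV) (n : ℕ) (F : ℤ[X]) (hn : Even n) (h4 : 4 ≤ n) (hF : (X - 1) ^ 3 * F = S n)
    (h3 : ¬ Q (n + 1) ∣ 3)
    (hlt : (n - 2) ^ 2 * (n + 4) ^ 2 < 64 * (Q (n + 1) ^ 2 * Q n * Q (n - 1))) :
    Irreducible (F.map (Int.castRingHom ℚ)) := by
  by_contra hcon
  rcases hDIV n F hn h4 hF hcon with h | ⟨d, d', hd, hd', hdd, hdvd⟩
  · exact h3 h
  · have h2 : (4 * (Q (n + 1) ^ 2 * Q n * Q (n - 1))) ∣ d * (d + 3) * (d' * (d' + 3)) := by
      refine Nat.Coprime.mul_dvd_of_dvd_of_dvd ?_ (four_dvd hn hdd) hdvd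
      have : Nat.Coprime (2 ^ 2) (Q (n + 1) ^ 2 * Q n * Q (n - 1)) := by
        refine Nat.Coprime.pow_left 2 ?_
        have key : ∀ N, Nat.Coprime 2 (Q N) := fun N =>
          (Nat.Prime.coprime_iff_not_dvd Nat.prime_two).2 (Q_odd N)
        exact Nat.Coprime.mul_right (Nat.Coprime.mul_right ((key _).pow_right 2) (key _)) (key _)
      simpa using this
    have h5 : 0 < d * (d + 3) * (d' * (d' + 3)) := by positivity
    have h6 := Nat.le_of_dvd h5 h2
    -- upper bound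
    have e1 : n - 2 = d + d' := by omega
    have e2 : n + 4 = (d + 3) + (d' + 3) := by omega
    have h7 : 4 * (d * d') ≤ (n - 2) ^ 2 := by
      rw [e1]; nlinarith [sq_nonneg ((d : ℤ) - d'), four_mul_le_pow_two_add d d']
    have h8 : 4 * ((d + 3) * (d' + 3)) ≤ (n + 4) ^ 2 := by
      rw [e2]
      have := four_mul_le_pow_two_add (d + 3) (d' + 3)
      linarith
    have h9 := Nat.mul_le_mul h7 h8
    have h10 : 4 * (d * d') * (4 * ((d + 3) * (d' + 3))) = 16 * (d * (d + 3) * (d' * (d' + 3))) := by ring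
    rw [h10] at h9
    have h11 : 16 * (4 * (Q (n + 1) ^ 2 * Q n * Q (n - 1))) ≤ (n - 2) ^ 2 * (n + 4) ^ 2 :=
      (Nat.mul_le_mul_left 16 h6).trans h9
    omega

theorem s_CRIT (hDIV : S_DIV) : S_CRIT := by
  intro n F hn h18 hF hlt
  refine crit hDIV n F hn (by omega) hF ?_ hlt
  intro h3
  have hQ3 : Q (n + 1) ≤ 3 := Nat.le_of_dvd (by norm_num) h3
  obtain ⟨k, hk⟩ := hn
  have hQn : Q n ≤ k := by
    have h1 : Q n ∣ 2 * k := by
      have := Q_dvd n
      rwa [show n = 2 * k by omega] at this ⊢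
    have h2 : Nat.Coprime (Q n) 2 :=
      ((Nat.Prime.coprime_iff_not_dvd Nat.prime_two).2 (Q_odd n)).symm
    exact Nat.le_of_dvd (by omega) (h2.dvd_of_dvd_mul_left h1)
  have hQm : Q (n - 1) ≤ n - 1 := Nat.le_of_dvd (by omega) (Q_dvd _)
  have h5 : Q (n + 1) ^ 2 * Q n * Q (n - 1) ≤ 3 ^ 2 * k * (n - 1) := by
    gcongr
  have h6 : (n - 2) ^ 2 * (n + 4) ^ 2 < 64 * (3 ^ 2 * k * (n - 1)) := by
    exact lt_of_lt_of_le hlt (Nat.mul_le_mul_left 64 h5)
  subst hk
  obtain ⟨j, rfl⟩ : ∃ j, k = j + 9 := ⟨k - 9, by omega⟩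
  have e1 : j + 9 + (j + 9) - 2 = 2 * j + 16 := by omega
  have e2 : j + 9 + (j + 9) - 1 = 2 * j + 17 := by omega
  have e3 : j + 9 + (j + 9) + 4 = 2 * j + 22 := by omega
  rw [e1, e2, e3] at h6
  nlinarith [Nat.zero_le j, sq_nonneg j]

end Pool.Agent.L7h26.TN
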