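import Mathlib

set_option autoImplicit false

/-!
# Project TN: irreducibility of the reduced polynomials of tan (n x) = n tan x, n even

`S n = (n - 1) (X ^ (n + 1) - 1) - (n + 1) (X ^ n - X)`, `S n = (X - 1) ^ 3 * F` for even `n`; is `F` irreducible over the
rationals?  Idea: if `F = g h` with degrees `d, d'`, then for every odd prime `p` that divides `n + 1` exactly once
one of `p ∣ d, p ∣ d' + 3` or `p ∣ d + 3, p ∣ d'` holds; if `p` divides `n` or `n - 1` exactly once then `p` divides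
`d (d + 3) d' (d' + 3)`.  But this product is less than `n ^ 4 / 16`.  If the square parts of `n - 1, n, n + 1` are not small
we get a point on a hyperbola `y ^ 2 = s T (2 n - 1) ^ 2 + s (9 s - T)`, and there are few of them.
-/

namespace Pool.Agent.L7h26.TN

open Polynomial

/-- The polynomial `S_n`. -/
noncomputable def S (n : ℕ) : ℤ[X] :=
  C ((n : ℤ) - 1) * (X ^ (n + 1) - 1) - C ((n : ℤ) + 1) * (X ^ n - X)

/-- Reduction modulo `p`. -/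
noncomputable def red (p : ℕ) (g : ℤ[X]) : (ZMod p)[X] := g.map (Int.castRingHom (ZMod p))

/-- `p` divides `N` exactly once. -/
def Ex (p N : ℕ) : Prop := p ∣ N ∧ ¬ p ^ 2 ∣ N

/-- The product of the odd primes that divide `N` exactly once. -/
def Q (N : ℕ) : ℕ := ∏ p ∈ N.primeFactors.filter (fun p => p ≠ 2 ∧ ¬ p ^ 2 ∣ N), p

/-- The cofactor (`Q N` divides `N`). -/
def r (N : ℕ) : ℕ := N / Q N

/-- DVD.  `(X - 1) ^ 3` divides `S n`.  (The values of `S n`, its first and second derivative at `1` are 0: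
`lt_rootMultiplicity_iff_isRoot_iterate_derivative`, or any other way.) -/
def S_DVD : Prop := ∀ n : ℕ, 1 ≤ n → (X - 1 : ℤ[X]) ^ 3 ∣ S n

/-- ONE.  Third derivative at 1: `6 F(1) = (n + 1) n (n - 1)`. -/
def S_ONE : Prop := ∀ (n : ℕ) (F : ℤ[X]), 1 ≤ n → (X - 1) ^ 3 * F = S n →
  6 * F.eval 1 = ((n : ℤ) + 1) * n * ((n : ℤ) - 1)

/-- PW.  Let `M` be the ideal of `ℤ[X]` generated by `p` and `π` (`π` not zero modulo `p`).  If `p w ∈ M ^ 2` then `w ∈ M`, that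
is, `π` divides `w` modulo `p`.
Proof: `p w = p ^ 2 A + p π B + π ^ 2 E`; modulo `p`: `π ^ 2 E = 0`, so `E = p E'`; cancel `p`. -/
def S_PW : Prop := ∀ (p : ℕ), p.Prime → ∀ π w A B E : ℤ[X], red p π ≠ 0 →
  C (p : ℤ) * w = C (p : ℤ) ^ 2 * A + C (p : ℤ) * π * B + π ^ 2 * E → red p π ∣ red p w

/-- COP.  `g` and `h` are coprime modulo `p`.

Proof.  Let the irreducible `ρ` in `(ZMod p)[X]` divide both, `π` a lift of `ρ`, `M = (p, π)`, so `g, h ∈ M` and `S n ∈ M ^ 2`.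
Let `N = p m` be the one of `n + 1, n, n - 1` which `p` divides exactly once (`m` prime to `p`).
Modulo `p`:  `S n = -2 (X ^ m - 1) ^ p` for `N = n + 1`; `- (X + 1) (X ^ m - 1) ^ p` for `N = n`; `-2 X (X ^ m - 1) ^ p` for
`N = n - 1`; and `X ^ m - 1` is squarefree modulo `p`.
(a) `ρ ∣ X ^ m - 1`, `ρ` not associated to `X - 1`.  Put `θ = X ^ m - 1 ∈ M`; then
`X ^ (p m) - 1 = (1 + θ) ^ p - 1 ∈ M ^ 2` (`p θ` and `θ ^ 2 * ...`).  Modulo `M ^ 2`: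
`N = n + 1`: `X * S n = - (n + 1) (X ^ (n + 1) - X ^ 2) = - p m (1 - X ^ 2)`;
`N = n`: `S n = (n - 1) (X - 1) - (n + 1) (1 - X) = 2 p m (X - 1)`;
`N = n - 1`: `S n = p m (X ^ 2 - 1)`.
By PW `ρ` divides `m (1 - X ^ 2)`, `2 m (X - 1)`, `m (X ^ 2 - 1)`, so `ρ` is associated to `X + 1` (and `N ≠ n`); but `N = n ± 1` is
odd, so `m` is odd and `X + 1` does not divide `X ^ m - 1` (value `-2` at `-1`).
(b) `ρ = X - 1`: for `p ≥ 5` by ONE: `p ^ 2` divides `6 g(1) h(1) = (n + 1) n (n - 1)`, impossible.  For `p = 3` the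
multiplicity of `X - 1` in `(X - 1) ^ 3 g h` would be at least 5, but it is 3 in all three cases.
(c) `ρ` does not divide `X ^ m - 1`: then `N = n`, `ρ = X + 1` or `N = n - 1`, `ρ = X`, and the multiplicity of `ρ` in the right
side is 1, but `ρ ^ 2` divides the left side. -/
def S_COP : Prop := ∀ (p n : ℕ), p.Prime → p ≠ 2 → Even n → 4 ≤ n → (Ex p (n + 1) ∨ Ex p n ∨ Ex p (n - 1)) →
  ∀ g h : ℤ[X], (X - 1) ^ 3 * (g * h) = S n → IsCoprime (red p g) (red p h)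

/-- LOC1.  `p ∥ n + 1`.  Proof: `(X - 1) ^ 3 g h = (c (X ^ m - 1)) ^ p` modulo `p` (`c = c ^ p = -2`).  `g`, `h` are coprime, so
`X - 1` does not divide both; say it does not divide `g`.  Then `g` is coprime to `(X - 1) ^ 3 h`, so both are associated
to `p`-th powers (`exists_associated_pow_of_mul_eq_pow`), `p ∣ deg g`, `p ∣ 3 + deg h` (`p` does not divide the
leading coefficients, their product is `n - 1`). -/
def S_LOC1 : Prop := ∀ (p n : ℕ), p.Prime → p ≠ 2 → Even n → 4 ≤ n → Ex p (n + 1) →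
  ∀ g h : ℤ[X], (X - 1) ^ 3 * (g * h) = S n → IsCoprime (red p g) (red p h) →
  (p ∣ g.natDegree ∧ p ∣ h.natDegree + 3) ∨ (p ∣ g.natDegree + 3 ∧ p ∣ h.natDegree)

/-- LOC0.  `p ∥ n`.  Proof: `(X - 1) ^ 3 g h = - (X + 1) (X ^ m - 1) ^ p` modulo `p`.  `X + 1` divides exactly one of
`g, h`, say `g = (X + 1) g2`; then `(X - 1) ^ 3 g2 h = (- (X ^ m - 1)) ^ p`.  If `X - 1` does not divide `h`, then `h` is
coprime to `(X - 1) ^ 3 g2`, so `p ∣ deg h`; otherwise `X - 1` does not divide `g`, `(X - 1) ^ 3 h` is coprime to `g2`, so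
`p ∣ 3 + deg h`.  (`p` does not divide the leading coefficients, their product is `n - 1`.) -/
def S_LOC0 : Prop := ∀ (p n : ℕ), p.Prime → p ≠ 2 → Even n → 4 ≤ n → Ex p n →
  ∀ g h : ℤ[X], (X - 1) ^ 3 * (g * h) = S n → IsCoprime (red p g) (red p h) →
  (p ∣ g.natDegree * (g.natDegree + 3)) ∨ (p ∣ h.natDegree * (h.natDegree + 3))

/-- LOCM.  `p ∥ n - 1`.  Proof: `(X - 1) ^ 3 g h = -2 X (X ^ m - 1) ^ p` modulo `p`.  `X` divides exactly one of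
`g, h` modulo `p`, say `g = X g2`, and `X` does not divide `h`, so `p` does not divide `h(0)`, hence not the leading
coefficient of `h`: the degree of `h` modulo `p` is `h.natDegree`.  Then as in LOC0. -/
def S_LOCM : Prop := ∀ (p n : ℕ), p.Prime → p ≠ 2 → Even n → 4 ≤ n → Ex p (n - 1) →
  ∀ g h : ℤ[X], (X - 1) ^ 3 * (g * h) = S n → IsCoprime (red p g) (red p h) →
  g.leadingCoeff.natAbs = (g.coeff 0).natAbs → h.leadingCoeff.natAbs = (h.coeff 0).natAbs →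
  (p ∣ g.natDegree * (g.natDegree + 3)) ∨ (p ∣ h.natDegree * (h.natDegree + 3))

/-- FAC.  If `F` is reducible over `ℚ` there is a factorisation over `ℤ` into factors of positive degree that are
reciprocal up to sign (in particular leading coefficient = ± constant coefficient), or into factors of equal degree.

Proof: `F` has degree `n - 2 ≥ 2`, `F(0) = n - 1 =` leading coefficient of `F`; `reverse (S n) = - S n`, so `reverse F = F`
(`reverse_mul_of_domain`).  Let `q` be an irreducible factor of `F` in `ℚ[X]` (degree < `n - 2`, as `F` is not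
irreducible), `q(0) ≠ 0`.  `reverse q` is again an irreducible factor.  If it is associated to `q`, let `g` be a primitive
integer multiple of `q`; `g ∣ F` in `ℤ[X]` by Gauss, `reverse g = ± g`, and `h = F / g` has `|lead h| = |h(0)|` because the
products are both `n - 1`.  Otherwise `q * reverse q` divides `F`; if its degree is less than `n - 2` use a primitive integer
multiple of it; if it is `n - 2`, then `deg q = (n - 2) / 2` and the primitive integer multiple `g` of `q` and `F / g` have the same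
degree. -/
def S_FAC : Prop := ∀ (n : ℕ) (F : ℤ[X]), Even n → 4 ≤ n → (X - 1) ^ 3 * F = S n →
  ¬ Irreducible (F.map (Int.castRingHom ℚ)) →
  ∃ g h : ℤ[X], (X - 1) ^ 3 * (g * h) = S n ∧ 1 ≤ g.natDegree ∧ 1 ≤ h.natDegree ∧
    ((g.leadingCoeff.natAbs = (g.coeff 0).natAbs ∧ h.leadingCoeff.natAbs = (h.coeff 0).natAbs) ∨
      g.natDegree = h.natDegree)

/-- DIV.  Collects the local results; `d = deg g`, `d' = deg h`, `d + d' = n - 2`.  In the case of equal degrees LOC1 gives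
for `p ∥ n + 1`, `p` odd: `p ∣ d` or `p ∣ d + 3` and `2 d + 3 = n + 1 ≡ 0`, so `p ∣ 3`; hence `Q (n + 1) ∣ 3`. -/
def S_DIV : Prop := ∀ (n : ℕ) (F : ℤ[X]), Even n → 4 ≤ n → (X - 1) ^ 3 * F = S n →
  ¬ Irreducible (F.map (Int.castRingHom ℚ)) →
  Q (n + 1) ∣ 3 ∨ ∃ d d' : ℕ, 1 ≤ d ∧ 1 ≤ d' ∧ d + d' + 2 = n ∧
    Q (n + 1) ^ 2 * Q n * Q (n - 1) ∣ d * (d + 3) * (d' * (d' + 3))

/-- CRIT.  From DIV: `4` divides `d (d + 3) d' (d' + 3)` as well (`d`, `d'` have the same parity), `d d' ≤ ((n - 2) / 2) ^ 2`,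
`(d + 3) (d' + 3) ≤ ((n + 4) / 2) ^ 2`.  If `Q (n + 1) ∣ 3` use `Q (n + 1) ≤ 3`, `2 Q n ≤ n`, `Q (n - 1) ≤ n - 1`. -/
def S_CRIT : Prop := ∀ (n : ℕ) (F : ℤ[X]), Even n → 18 ≤ n → (X - 1) ^ 3 * F = S n →
  (n - 2) ^ 2 * (n + 4) ^ 2 < 64 * (Q (n + 1) ^ 2 * Q n * Q (n - 1)) →
  Irreducible (F.map (Int.castRingHom ℚ))

/-- EQN.  Let `s = r (n + 1) ^ 2 * r n * r (n - 1)` and `T = d (d + 3) d' (d' + 3) / (Q (n + 1) ^ 2 * Q n * Q (n - 1))`, `P = d d'`.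
Then `T n (n - 1) (n + 1) ^ 2 = s P (P + 3 (n + 1))`, so `(s (2 P + 3 (n + 1))) ^ 2 = (n + 1) ^ 2 (4 s T n (n - 1) + 9 s ^ 2)`, and
`y = s (2 P + 3 (n + 1)) / (n + 1)` is an integer (`Nat.pow_dvd_pow_iff`). -/
def S_EQN : Prop := ∀ n d d' : ℕ, 4 ≤ n → 1 ≤ d → 1 ≤ d' → d + d' + 2 = n →
  Q (n + 1) ^ 2 * Q n * Q (n - 1) ∣ d * (d + 3) * (d' * (d' + 3)) →
  ∃ T y : ℕ, 0 < T ∧ T < r (n + 1) ^ 2 * r n * r (n - 1) ∧
    y ^ 2 = (r (n + 1) ^ 2 * r n * r (n - 1)) * T * (2 * n - 1) ^ 2 +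
      (r (n + 1) ^ 2 * r n * r (n - 1)) * (9 * (r (n + 1) ^ 2 * r n * r (n - 1)) - T)

/-- GAP.  Three integer points on `y ^ 2 = D z ^ 2 + c` are not too near to each other.
Proof: `Δ = (y3 - y2) (z2 - z1) - (y2 - y1) (z3 - z2)` is an integer and
`Δ (y1 + y2) (y2 + y3) = D (z3 - z2) (z2 - z1) ((z2 y1 - z1 y2) + (z3 y1 - z1 y3) + (z3 y2 - z2 y3))`, where
`z_j y_i - z_i y_j > 0` for `i < j`, as `(z_j y_i) ^ 2 - (z_i y_j) ^ 2 = c (z_j ^ 2 - z_i ^ 2)`; so `Δ ≥ 1`.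
With `e_i = y_i - √D z_i = c / (y_i + √D z_i) > 0` (decreasing):
`Δ = (z3 - z2) (e1 - e2) - (z2 - z1) (e2 - e3) < (z3 - z2) (e1 - e2)` and
`e1 - e2 ≤ c * 2 √D (z2 - z1) / (4 D z1 ^ 2)`, so `1 ≤ c (z3 - z2) (z2 - z1) / (2 z1 ^ 2) ≤ c (z3 - z1) ^ 2 / (8 z1 ^ 2)`. -/
def S_GAP : Prop := ∀ (D c z1 z2 z3 y1 y2 y3 : ℤ), 0 < D → 0 < c → 0 < z1 → z1 < z2 → z2 < z3 →
  0 ≤ y1 → 0 ≤ y2 → 0 ≤ y3 → y1 ^ 2 = D * z1 ^ 2 + c → y2 ^ 2 = D * z2 ^ 2 + c → y3 ^ 2 = D * z3 ^ 2 + c →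
  8 * z1 ^ 2 ≤ c * (z3 - z1) ^ 2

/-- CNT.  From GAP with `z = 2 n - 1`, `D = s T`, `c = s (9 s - T) ≤ 9 s ^ 2`: three solutions `n1 < n2 < n3` in `[Z, X]` satisfy
`n3 - n1 ≥ Z / (3 s)`, so an interval of length less than `Z / (3 s)` contains at most two; cut `[Z, X]`. -/
def S_CNT : Prop := ∀ s T Z X : ℕ, 0 < T → T < s → 1 ≤ Z → Z ≤ X →
  (Nat.card {n : ℕ // Z ≤ n ∧ n ≤ X ∧ ∃ y : ℕ, y ^ 2 = s * T * (2 * n - 1) ^ 2 + s * (9 * s - T)} : ℝ) ≤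
    20 * s * X / Z

/-- SQF.  `N = b ^ 2 a` with `a` squarefree (`Nat.sq_mul_squarefree`); a prime factor of `a` is 2, divides `b`, or divides `Q N`, so
`a ∣ 2 b Q N` and `r N ≤ 2 b ^ 3`.  If `r N > R` then `b ≥ b0 > (R / 2) ^ (1 / 3)`, and the number of `N ≤ X` divisible by `b ^ 2` for
some `b ≥ b0` is at most `∑ X / b ^ 2 ≤ 2 X / b0`. -/
def S_SQF : Prop := ∀ X : ℕ, ∀ R : ℝ, 1 ≤ R →
  (Nat.card {N : ℕ // 1 ≤ N ∧ N ≤ X ∧ R < r N} : ℝ) ≤ 4 * X * R ^ (-(1 / 3) : ℝ)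

/-- FIN.  Power saving for the exceptional set.  Let `S0 = X ^ (1 / 4)`, `Z = X ^ (47 / 48)`.  The exceptional `n ≤ X` satisfy: `n < Z`, or
`s(n) = r (n + 1) ^ 2 r n r (n - 1) > S0` (then one of the three `r` is `> S0 ^ (1 / 4)`: SQF), or `Q (n + 1) ∣ 3` (then
`r (n + 1) ≥ (n + 1) / 3 > S0 ^ (1 / 4)` for large `X`), or `n` is counted in CNT for some `s ≤ S0`, `T < s` (EQN). -/
def S_FIN : Prop := ∃ K : ℝ, ∀ X : ℕ, 1 ≤ X →
  (Nat.card {n : ℕ // n ≤ X ∧ Even n ∧ 4 ≤ n ∧ ∃ F : ℤ[X], (Polynomial.X - 1) ^ 3 * F = S n ∧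
    ¬ Irreducible (F.map (Int.castRingHom ℚ))} : ℝ) ≤ K * (X : ℝ) ^ (47 / 48 : ℝ)

end Pool.Agent.L7h26.TN
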